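import Pool.Agent.W254.LF.Stm3
set_option autoImplicit false
set_option linter.all false

namespace Pool.Agent.W154.LF

open Polynomial

variable (p : ℕ) [Fact p.Prime]

/-- the closed unit ball of `ℂ_[p]` -/
def OO : Subring ℂ_[p] where
  carrier := {x | ‖x‖ ≤ 1}
  mul_mem' := by
    intro a b ha hb
    simp only [Set.mem_setOf_eq] at *
    rw [norm_mul]
    exact mul_le_one₀ ha (norm_nonneg _) hb
  one_mem' := by simp
  add_mem' := by
    intro a b ha hb
    exact (IsUltrametricDist.norm_add_le_max a b).trans (max_le ha hb)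
  zero_mem' := by simp
  neg_mem' := by intro a ha; simpa using ha

theorem mem_OO (x : ℂ_[p]) : x ∈ OO p ↔ ‖x‖ ≤ 1 := Iff.rfl

theorem norm_OO (x : OO p) : ‖(x : ℂ_[p])‖ ≤ 1 := x.2

theorem norm_int (n : ℤ) : ‖(n : ℂ_[p])‖ ≤ 1 := IsUltrametricDist.norm_intCast_le_one _ n

theorem norm_p_lt : ‖(p : ℂ_[p])‖ < 1 := by
  have h1 : ((p : ℚ_[p]) : ℂ_[p]) = (p : ℂ_[p]) := by
    exact map_natCast (algebraMap ℚ_[p] ℂ_[p]) p
  rw [← h1, PadicComplex.norm_extends']
  exact Padic.norm_p_lt_one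

/-- evaluation of a power series over the unit ball -/
noncomputable def ev (z : ℂ_[p]) (f : PowerSeries (OO p)) : ℂ_[p] :=
  ∑' k, ((PowerSeries.coeff k f : OO p) : ℂ_[p]) * z ^ k

variable {p}

theorem ev_summable {z : ℂ_[p]} (hz : ‖z‖ < 1) (f : PowerSeries (OO p)) :
    Summable fun k => ‖((PowerSeries.coeff k f : OO p) : ℂ_[p]) * z ^ k‖ := by
  apply Summable.of_nonneg_of_le (fun k => norm_nonneg _) (fun k => ?_)
    (summable_geometric_of_lt_one (norm_nonneg z) hz)
  rw [norm_mul, norm_pow]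
  exact mul_le_of_le_one_left (by positivity) (norm_OO p _)

theorem ev_C (z : ℂ_[p]) (c : OO p) : ev p z (PowerSeries.C c) = (c : ℂ_[p]) := by
  unfold ev
  rw [tsum_eq_single 0]
  · simp
  · intro k hk
    rw [PowerSeries.coeff_C, if_neg hk]
    simp

theorem ev_X (z : ℂ_[p]) : ev p z (PowerSeries.X : PowerSeries (OO p)) = z := by
  unfold ev
  rw [tsum_eq_single 1]
  · simp [PowerSeries.coeff_X]
  · intro k hk
    rw [PowerSeries.coeff_X, if_neg hk]
    simp

theorem ev_add {z : ℂ_[p]} (hz : ‖z‖ < 1) (f g : PowerSeries (OO p)) :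
    ev p z (f + g) = ev p z f + ev p z g := by
  unfold ev
  rw [← Summable.tsum_add (ev_summable hz f).of_norm (ev_summable hz g).of_norm]
  congr 1
  funext k
  rw [map_add]
  push_cast
  ring

theorem ev_mul {z : ℂ_[p]} (hz : ‖z‖ < 1) (f g : PowerSeries (OO p)) :
    ev p z (f * g) = ev p z f * ev p z g := by
  unfold ev
  rw [tsum_mul_tsum_eq_tsum_sum_antidiagonal_of_summable_norm (ev_summable hz f) (ev_summable hz g)]
  congr 1
  funext k
  rw [PowerSeries.coeff_mul]
  push_cast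
  rw [Finset.sum_mul]
  apply Finset.sum_congr rfl
  intro x hx
  rw [Finset.HasAntidiagonal.mem_antidiagonal] at hx
  rw [← hx, pow_add]
  ring

/-- evaluation as a ring homomorphism -/
noncomputable def evHom {z : ℂ_[p]} (hz : ‖z‖ < 1) : PowerSeries (OO p) →+* ℂ_[p] where
  toFun := ev p z
  map_one' := by
    have := ev_C z (1 : OO p)
    simpa using this
  map_mul' := ev_mul hz
  map_zero' := by
    have := ev_C z (0 : OO p)
    simpa using this
  map_add' := ev_add hz

theorem evHom_apply {z : ℂ_[p]} (hz : ‖z‖ < 1) (f : PowerSeries (OO p)) :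
    evHom hz f = ev p z f := rfl

/-- `ev` of `C x + X * W` -/
theorem ev_aff {z : ℂ_[p]} (hz : ‖z‖ < 1) (x : OO p) (Wd : PowerSeries (OO p)) :
    ev p z (PowerSeries.C x + PowerSeries.X * Wd) =
      (x : ℂ_[p]) + ∑' k, ((PowerSeries.coeff k Wd : OO p) : ℂ_[p]) * z ^ (k + 1) := by
  rw [ev_add hz, ev_mul hz, ev_C, ev_X]
  unfold ev
  rw [← tsum_mul_left]
  congr 2
  funext k
  rw [pow_succ]
  ring

theorem isUnit_OO (x : OO p) (h : ‖(x : ℂ_[p])‖ = 1) : IsUnit x := by
  have hx : (x : ℂ_[p]) ≠ 0 := by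
    intro h0; rw [h0, norm_zero] at h; norm_num at h
  refine IsUnit.of_mul_eq_one ⟨(x : ℂ_[p])⁻¹, ?_⟩ ?_
  · rw [mem_OO, norm_inv, h, inv_one]
  · apply Subtype.ext
    simp [hx]

/-- the polynomial over the integers -/
noncomputable def FF {R : Type} [CommRing R] {m : ℕ} (a : Fin m → R) (t : R) : R[X] :=
  (X - C t) * ∏ i, (X - C (a i)) - 1

theorem FF_map {R S : Type} [CommRing R] [CommRing S] (φ : R →+* S) {m : ℕ} (a : Fin m → R) (t : R) :
    (FF a t).map φ = FF (fun i => φ (a i)) (φ t) := by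
  unfold FF
  simp [Polynomial.map_sub, Polynomial.map_mul, Polynomial.map_prod]

theorem FF_eval {R : Type} [CommRing R] {m : ℕ} (a : Fin m → R) (t x : R) :
    (FF a t).eval x = (x - t) * ∏ i, (x - a i) - 1 := by
  unfold FF
  simp only [eval_sub, eval_mul, eval_X, eval_C, eval_prod, eval_one]

theorem FF_monic {R : Type} [CommRing R] [Nontrivial R] {m : ℕ} (a : Fin m → R) (t : R) :
    (FF a t).Monic ∧ (FF a t).natDegree = m + 1 := by
  have hm2 : (∏ i, (X - C (a i)) : R[X]).Monic := monic_prod_of_monic _ _ fun i _ => monic_X_sub_C _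
  have hm1 : ((X - C t) * ∏ i, (X - C (a i)) : R[X]).Monic := (monic_X_sub_C _).mul hm2
  have hdeg : ((X - C t) * ∏ i, (X - C (a i)) : R[X]).natDegree = m + 1 := by
    rw [(monic_X_sub_C _).natDegree_mul hm2, natDegree_X_sub_C,
      natDegree_prod_of_monic _ _ (fun i _ => monic_X_sub_C _)]
    simp [add_comm]
  have hlt : (1 : R[X]).degree < ((X - C t) * ∏ i, (X - C (a i)) : R[X]).degree := by
    rw [degree_one, degree_eq_natDegree hm1.ne_zero, hdeg]
    exact_mod_cast Nat.succ_pos m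
  constructor
  · exact hm1.sub_of_left hlt
  · unfold FF
    rw [← hdeg]
    exact natDegree_eq_of_degree_eq (degree_sub_eq_left_of_degree_lt hlt)

/-- Hensel step -/
theorem hensel (m : ℕ) (a : Fin m → OO p) (t x : OO p)
    (hx : (x - t) * ∏ i, (x - a i) = 1)
    (hd : ‖((((X - C t) * ∏ i, (X - C (a i)) - 1 : (OO p)[X]).derivative.eval x : OO p) : ℂ_[p])‖ = 1) :
    ∃ Wd : PowerSeries (OO p),
      (PowerSeries.C x + PowerSeries.X * Wd - (PowerSeries.C t + PowerSeries.X)) *
        ∏ i, (PowerSeries.C x + PowerSeries.X * Wd - PowerSeries.C (a i)) = 1 := by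
  set R := PowerSeries (OO p) with hR
  set f : R[X] := (X - C (PowerSeries.C t + PowerSeries.X)) *
    ∏ i, (X - C (PowerSeries.C (a i))) - 1 with hf
  have hmon : f.Monic := (FF_monic (fun i => PowerSeries.C (a i)) (PowerSeries.C t + PowerSeries.X)).1
  have heval : f.eval (PowerSeries.C x) ∈ Ideal.span {(PowerSeries.X : R)} := by
    have e : f.eval (PowerSeries.C x) =
        - (∏ i, (PowerSeries.C x - PowerSeries.C (a i))) * PowerSeries.X := by
      have e1 : (PowerSeries.C x - PowerSeries.C t) * ∏ i, (PowerSeries.C x - PowerSeries.C (a i)) = (1 : R) := by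
        have := congrArg (PowerSeries.C (R := OO p)) hx
        simpa [map_mul, map_prod, map_sub] using this
      rw [hf]
      simp only [eval_sub, eval_mul, eval_X, eval_C, eval_prod, eval_one]
      have e2 : (PowerSeries.C x - (PowerSeries.C t + PowerSeries.X)) *
          ∏ i, (PowerSeries.C x - PowerSeries.C (a i)) - 1 =
          (PowerSeries.C x - PowerSeries.C t) * ∏ i, (PowerSeries.C x - PowerSeries.C (a i)) - 1
          - (∏ i, (PowerSeries.C x - PowerSeries.C (a i))) * (PowerSeries.X : R) := by ring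
      rw [e2, e1]; ring
    rw [e]
    exact Ideal.mul_mem_left _ _ (Ideal.mem_span_singleton_self _)
  have hder : IsUnit (f.derivative.eval (PowerSeries.C x)) := by
    rw [PowerSeries.isUnit_iff_constantCoeff]
    have e : PowerSeries.constantCoeff (f.derivative.eval (PowerSeries.C x)) =
        ((X - C t) * ∏ i, (X - C (a i)) - 1 : (OO p)[X]).derivative.eval x := by
      have h1 : f.map (PowerSeries.constantCoeff (R := OO p)) =
          (X - C t) * ∏ i, (X - C (a i)) - 1 := by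
        rw [hf]
        simp [Polynomial.map_sub, Polynomial.map_mul, Polynomial.map_prod]
      rw [← h1, derivative_map]
      have h2 := Polynomial.eval₂_at_apply (p := f.derivative) (PowerSeries.constantCoeff (R := OO p))
        (PowerSeries.C x)
      rw [PowerSeries.constantCoeff_C] at h2
      rw [← h2, eval_map]
    rw [e]
    exact isUnit_OO _ hd
  obtain ⟨Y, hY, hYx⟩ := (inferInstance : HenselianRing R (Ideal.span {(PowerSeries.X : R)})).is_henselian
    f hmon (PowerSeries.C x) heval (hder.map _)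
  rw [Ideal.mem_span_singleton] at hYx
  obtain ⟨Wd, hW⟩ := hYx
  refine ⟨Wd, ?_⟩
  have hYe : Y = PowerSeries.C x + PowerSeries.X * Wd := by rw [← hW]; ring
  rw [← hYe]
  have h3 : f.eval Y = 0 := hY
  rw [hf] at h3
  simp only [eval_sub, eval_mul, eval_X, eval_C, eval_prod, eval_one] at h3
  rw [sub_eq_zero] at h3
  exact h3

/-- the first coefficient -/
theorem first_coeff (m : ℕ) (a : Fin m → OO p) (t x : OO p)
    (hx : (x - t) * ∏ i, (x - a i) = 1) (Wd : PowerSeries (OO p))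
    (hW : (PowerSeries.C x + PowerSeries.X * Wd - (PowerSeries.C t + PowerSeries.X)) *
        ∏ i, (PowerSeries.C x + PowerSeries.X * Wd - PowerSeries.C (a i)) = 1) :
    (((X - C t) * ∏ i, (X - C (a i)) - 1 : (OO p)[X]).derivative.eval x) *
      PowerSeries.coeff 0 Wd = ∏ i, (x - a i) := by
  set F : (OO p)[X] := (X - C t) * ∏ i, (X - C (a i)) - 1 with hF
  set G : (PowerSeries (OO p))[X] := F.map (PowerSeries.C (R := OO p)) with hG
  obtain ⟨k, hk⟩ := G.binomExpansion (PowerSeries.C x) (PowerSeries.X * Wd)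
  have hGe : G = (X - C (PowerSeries.C t)) * ∏ i, (X - C (PowerSeries.C (a i))) - 1 := by
    rw [hG, hF]
    simp [Polynomial.map_sub, Polynomial.map_mul, Polynomial.map_prod]
  have e0 : G.eval (PowerSeries.C x) = 0 := by
    have h1 := Polynomial.eval₂_at_apply (p := F) (PowerSeries.C (R := OO p)) x
    rw [hG, eval_map, h1]
    have h2 : F.eval x = 0 := by
      rw [hF]
      simp only [eval_sub, eval_mul, eval_X, eval_C, eval_prod, eval_one]
      rw [hx, sub_self]
    rw [h2, map_zero]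
  have e1 : G.derivative.eval (PowerSeries.C x) = PowerSeries.C (F.derivative.eval x) := by
    have h1 := Polynomial.eval₂_at_apply (p := F.derivative) (PowerSeries.C (R := OO p)) x
    rw [hG, derivative_map, eval_map, h1]
  have e2 : G.eval (PowerSeries.C x + PowerSeries.X * Wd) =
      PowerSeries.X * ∏ i, (PowerSeries.C x + PowerSeries.X * Wd - PowerSeries.C (a i)) := by
    rw [hGe]
    simp only [eval_sub, eval_mul, eval_X, eval_C, eval_prod, eval_one]
    linear_combination hW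
  rw [e0, e1, e2] at hk
  have h3 := congrArg (PowerSeries.coeff 1) hk
  rw [PowerSeries.coeff_succ_X_mul] at h3
  have h4 : (0 : PowerSeries (OO p)) + PowerSeries.C (eval x (derivative F)) * (PowerSeries.X * Wd) +
      k * (PowerSeries.X * Wd) ^ 2 =
      PowerSeries.X * (PowerSeries.C (eval x (derivative F)) * Wd + PowerSeries.X * (k * Wd ^ 2)) := by
    ring
  rw [h4, show (1 : ℕ) = 0 + 1 from rfl, PowerSeries.coeff_succ_X_mul] at h3
  simp only [PowerSeries.coeff_zero_eq_constantCoeff, map_add, map_mul, map_sub, map_prod,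
    PowerSeries.constantCoeff_X, PowerSeries.constantCoeff_C, zero_mul, add_zero] at h3
  rw [PowerSeries.coeff_zero_eq_constantCoeff]
  exact h3.symm

/-- integer polynomials have values in the unit ball -/
theorem norm_aeval_le (G : ℤ[X]) (x : ℂ_[p]) (hx : ‖x‖ ≤ 1) :
    ‖(G.map (Int.castRingHom ℂ_[p])).eval x‖ ≤ 1 := by
  have h1 := Polynomial.hom_eval₂ G (Int.castRingHom (OO p)) (OO p).subtype ⟨x, hx⟩
  have h2 : (OO p).subtype.comp (Int.castRingHom (OO p)) = Int.castRingHom ℂ_[p] :=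
    RingHom.ext_int _ _
  rw [h2] at h1
  rw [eval_map]
  have h3 : (OO p).subtype ⟨x, hx⟩ = x := rfl
  rw [h3] at h1
  rw [← h1]
  exact norm_OO p _

theorem prod_eq_one {ι : Type} (s : Finset ι) (f : ι → ℝ) (h0 : ∀ i ∈ s, 0 ≤ f i)
    (h1 : ∀ i ∈ s, f i ≤ 1) (h : ∏ i ∈ s, f i = 1) : ∀ i ∈ s, f i = 1 := by
  classical
  intro i hi
  apply le_antisymm (h1 i hi)
  rw [← Finset.mul_prod_erase s f hi] at h
  have h2 : ∏ j ∈ s.erase i, f j ≤ 1 :=
    Finset.prod_le_one (fun j hj => h0 j (Finset.mem_of_mem_erase hj))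
      (fun j hj => h1 j (Finset.mem_of_mem_erase hj))
  calc (1 : ℝ) = f i * ∏ j ∈ s.erase i, f j := h.symm
    _ ≤ f i * 1 := mul_le_mul_of_nonneg_left h2 (h0 i hi)
    _ = f i := mul_one _

/-- Bezout identity modulo `p` -/
theorem bezout (F : ℤ[X]) (h : (F.map (Int.castRingHom (ZMod p))).Separable) :
    ∃ U V H : ℤ[X], U * F + V * derivative F = 1 + C (p : ℤ) * H := by
  obtain ⟨u, v, huv⟩ := h
  have hsurj : Function.Surjective (Polynomial.map (Int.castRingHom (ZMod p))) :=
    Polynomial.map_surjective _ (ZMod.intCast_surjective)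
  obtain ⟨U, rfl⟩ := hsurj u
  obtain ⟨V, rfl⟩ := hsurj v
  have h1 : (U * F + V * derivative F - 1).map (Int.castRingHom (ZMod p)) = 0 := by
    rw [Polynomial.map_sub, Polynomial.map_add, Polynomial.map_mul, Polynomial.map_mul,
      ← derivative_map, huv, Polynomial.map_one, sub_self]
  have h2 : C (p : ℤ) ∣ (U * F + V * derivative F - 1) := by
    rw [C_dvd_iff_dvd_coeff]
    intro i
    have := congrArg (fun q => q.coeff i) h1
    simp only [coeff_map, coeff_zero, eq_intCast] at this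
    exact (ZMod.intCast_zmod_eq_zero_iff_dvd _ _).1 this
  obtain ⟨H, hH⟩ := h2
  exact ⟨U, V, H, by rw [← hH]; ring⟩

theorem norm_deriv (F : ℤ[X]) (h : (F.map (Int.castRingHom (ZMod p))).Separable) (x : ℂ_[p])
    (hx : ‖x‖ ≤ 1) (hr : (F.map (Int.castRingHom ℂ_[p])).eval x = 0) :
    ‖((derivative F).map (Int.castRingHom ℂ_[p])).eval x‖ = 1 := by
  obtain ⟨U, V, H, hUV⟩ := bezout F h
  have h1 := congrArg (fun q => (q.map (Int.castRingHom ℂ_[p])).eval x) hUV
  simp only [Polynomial.map_add, Polynomial.map_mul, eval_add, eval_mul, hr, mul_zero, zero_add,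
    Polynomial.map_one, eval_one, map_C, eval_C] at h1
  have h2 : ‖(Int.castRingHom ℂ_[p]) (p : ℤ) * (H.map (Int.castRingHom ℂ_[p])).eval x‖ < 1 := by
    rw [norm_mul]
    have e : (Int.castRingHom ℂ_[p]) (p : ℤ) = (p : ℂ_[p]) := by simp
    rw [e]
    calc _ ≤ ‖(p : ℂ_[p])‖ * 1 := mul_le_mul_of_nonneg_left (norm_aeval_le H x hx) (norm_nonneg _)
      _ < 1 := by rw [mul_one]; exact norm_p_lt p
  have h3 : ‖(1 : ℂ_[p]) + (Int.castRingHom ℂ_[p]) (p : ℤ) * (H.map (Int.castRingHom ℂ_[p])).eval x‖ = 1 := by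
    rw [IsUltrametricDist.norm_add_eq_max_of_norm_ne_norm]
    · rw [norm_one, max_eq_left h2.le]
    · rw [norm_one]; exact h2.ne'
  rw [← h1, norm_mul] at h3
  apply le_antisymm (norm_aeval_le _ x hx)
  calc (1 : ℝ) = ‖(V.map (Int.castRingHom ℂ_[p])).eval x‖ * _ := h3.symm
    _ ≤ 1 * ‖((derivative F).map (Int.castRingHom ℂ_[p])).eval x‖ :=
        mul_le_mul_of_nonneg_right (norm_aeval_le V x hx) (norm_nonneg _)
    _ = _ := one_mul _

theorem norm_root_le {m : ℕ} (a : Fin m → ℤ) (t : ℤ) (x : ℂ_[p])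
    (h : (x - (t : ℂ_[p])) * ∏ i, (x - (a i : ℂ_[p])) = 1) : ‖x‖ ≤ 1 := by
  by_contra hcon
  push Not at hcon
  have key : ∀ n : ℤ, ‖x - (n : ℂ_[p])‖ = ‖x‖ := by
    intro n
    have h1 : ‖-(n : ℂ_[p])‖ < ‖x‖ := by
      rw [norm_neg]; exact (norm_int p n).trans_lt hcon
    rw [sub_eq_add_neg, IsUltrametricDist.norm_add_eq_max_of_norm_ne_norm h1.ne',
      max_eq_left h1.le]
  have h2 := congrArg norm h
  rw [norm_mul, norm_prod, norm_one, key] at h2
  simp only [key] at h2
  rw [Finset.prod_const] at h2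
  have h3 : 1 ≤ ‖x‖ ^ (Finset.univ : Finset (Fin m)).card := one_le_pow₀ hcon.le
  have h4 : ‖x‖ * 1 ≤ ‖x‖ * ‖x‖ ^ (Finset.univ : Finset (Fin m)).card :=
    mul_le_mul_of_nonneg_left h3 (norm_nonneg _)
  rw [h2] at h4
  linarith

theorem norm_root_sub {m : ℕ} (a : Fin m → ℤ) (t : ℤ) (x : ℂ_[p])
    (h : (x - (t : ℂ_[p])) * ∏ i, (x - (a i : ℂ_[p])) = 1) (i : Fin m) :
    ‖x - (a i : ℂ_[p])‖ = 1 := by
  have hx := norm_root_le a t x h
  have key : ∀ n : ℤ, ‖x - (n : ℂ_[p])‖ ≤ 1 := fun n =>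
    (OO p).sub_mem (show x ∈ OO p from hx) (show ((n : ℤ) : ℂ_[p]) ∈ OO p from norm_int p n)
  have h2 := congrArg norm h
  rw [norm_mul, norm_prod, norm_one] at h2
  have h3 : ∏ i, ‖x - (a i : ℂ_[p])‖ = 1 := by
    apply le_antisymm (Finset.prod_le_one (fun _ _ => norm_nonneg _) (fun i _ => key _))
    calc (1 : ℝ) = ‖x - (t : ℂ_[p])‖ * ∏ i, ‖x - (a i : ℂ_[p])‖ := h2.symm
      _ ≤ 1 * ∏ i, ‖x - (a i : ℂ_[p])‖ :=
          mul_le_mul_of_nonneg_right (key t) (Finset.prod_nonneg fun _ _ => norm_nonneg _)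
      _ = _ := one_mul _
  exact prod_eq_one Finset.univ _ (fun _ _ => norm_nonneg _) (fun i _ => key _) h3 i
    (Finset.mem_univ i)

theorem t_ROOT : Pool.Agent.W254.LF.S_ROOT := by
  classical
  intro p _ m a t hsep
  have hsepF : ((FF a t).map (Int.castRingHom (ZMod p))).Separable := hsep
  set Fc : ℂ_[p][X] := (FF a t).map (Int.castRingHom ℂ_[p]) with hFc
  have hFc' : Fc = FF (fun i => (a i : ℂ_[p])) (t : ℂ_[p]) := by
    rw [hFc, FF_map]; simp
  obtain ⟨hmon, hdeg⟩ := FF_monic (fun i => (a i : ℂ_[p])) (t : ℂ_[p])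
  rw [← hFc'] at hmon hdeg
  have hrootEq : ∀ x : ℂ_[p], Fc.eval x = 0 ↔ (x - (t : ℂ_[p])) * ∏ i, (x - (a i : ℂ_[p])) = 1 := by
    intro x
    rw [hFc', FF_eval, sub_eq_zero]
  have hderiv : ∀ x : ℂ_[p], Fc.eval x = 0 → ‖Fc.derivative.eval x‖ = 1 := by
    intro x hx
    have h1 := norm_deriv (FF a t) hsepF x (norm_root_le a t x ((hrootEq x).1 hx)) hx
    rwa [← derivative_map, ← hFc] at h1
  have hcard : Multiset.card Fc.roots = m + 1 := by
    rw [← hdeg]; exact IsAlgClosed.card_roots_eq_natDegree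
  have hnodup : Fc.roots.Nodup := by
    rw [Multiset.nodup_iff_count_le_one]
    intro x
    rw [count_roots]
    by_contra hcon
    push Not at hcon
    obtain ⟨h1, h2⟩ := (one_lt_rootMultiplicity_iff_isRoot hmon.ne_zero).1 hcon
    have h3 := hderiv x h1
    rw [show Fc.derivative.eval x = 0 from h2, norm_zero] at h3
    norm_num at h3
  set S := Fc.roots.toFinset with hS
  have hScard : S.card = m + 1 := by
    rw [hS, Multiset.toFinset_card_of_nodup hnodup, hcard]
  let e := (S.equivFinOfCardEq hScard).symm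
  let x : Fin (m + 1) → ℂ_[p] := fun j => (e j : ℂ_[p])
  have hxroot : ∀ j, Fc.eval (x j) = 0 := by
    intro j
    have h1 : (e j : ℂ_[p]) ∈ Fc.roots.toFinset := (e j).2
    rw [Multiset.mem_toFinset, mem_roots hmon.ne_zero] at h1
    exact h1
  have hxeq : ∀ j, (x j - (t : ℂ_[p])) * ∏ i, (x j - (a i : ℂ_[p])) = 1 :=
    fun j => (hrootEq _).1 (hxroot j)
  have hxle : ∀ j, ‖x j‖ ≤ 1 := fun j => norm_root_le a t _ (hxeq j)
  have hprod : Fc = ∏ j, (X - C (x j)) := by
    have h1 := (IsAlgClosed.splits Fc).eq_prod_roots_of_monic hmon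
    have h2 : (Fc.roots.map fun a => X - C a).prod = ∏ y ∈ S, (X - C y) := by
      rw [Finset.prod_eq_multiset_prod, hS, Multiset.toFinset_val, hnodup.dedup]
    have h3 : ∏ y ∈ S, (X - C y) = ∏ j, (X - C (x j)) := by
      rw [← Finset.prod_coe_sort S (fun y => X - C y)]
      exact (Equiv.prod_comp e (fun y : S => (X - C (y : ℂ_[p])))).symm
    rw [← h3, ← h2]; exact h1
  have hdiff : ∀ i j, i ≠ j → ‖x i - x j‖ = 1 := by
    intro i j hij
    have h1 : Fc = (X - C (x i)) * ∏ k ∈ Finset.univ.erase i, (X - C (x k)) := by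
      rw [hprod]
      exact (Finset.mul_prod_erase Finset.univ (fun k => (X - C (x k) : ℂ_[p][X])) (Finset.mem_univ i)).symm
    have h2 : Fc.derivative.eval (x i) = ∏ k ∈ Finset.univ.erase i, (x i - x k) := by
      rw [h1, derivative_mul]
      simp [eval_prod]
    have h3 := hderiv (x i) (hxroot i)
    rw [h2, norm_prod] at h3
    exact prod_eq_one _ _ (fun _ _ => norm_nonneg _)
      (fun k _ => (OO p).sub_mem (show x i ∈ OO p from hxle i) (show x k ∈ OO p from hxle k)) h3 j
      (by simp [Ne.symm hij])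
  have hex : ∀ j, ∃ ξ : ℕ → ℂ_[p], (∀ k, ‖ξ k‖ ≤ 1) ∧ ‖ξ 0‖ = 1 ∧
      ∀ s : ℂ_[p], ‖s‖ ≤ 1 →
        (x j + ∑' k, ξ k * ((p : ℂ_[p]) * s) ^ (k + 1) - ((t : ℂ_[p]) + p * s)) *
          ∏ i, (x j + ∑' k, ξ k * ((p : ℂ_[p]) * s) ^ (k + 1) - (a i : ℂ_[p])) = 1 := by
    intro j
    let xo : OO p := ⟨x j, hxle j⟩
    let ao : Fin m → OO p := fun i => ((a i : ℤ) : OO p)
    let tt : OO p := ((t : ℤ) : OO p)
    have h1 : (xo - tt) * ∏ i, (xo - ao i) = 1 := by
      apply Subtype.ext
      push_cast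
      exact hxeq j
    have h2 : (((FF ao tt).derivative.eval xo : OO p) : ℂ_[p]) = Fc.derivative.eval (x j) := by
      have h3 := Polynomial.eval₂_at_apply (p := (FF ao tt).derivative) (OO p).subtype xo
      have h4 : ((FF ao tt).derivative).map (OO p).subtype = Fc.derivative := by
        rw [← derivative_map, FF_map, hFc']
        congr 1
      rw [← h4, eval_map]
      exact h3.symm
    have h5 : ‖(((FF ao tt).derivative.eval xo : OO p) : ℂ_[p])‖ = 1 := by
      rw [h2]; exact hderiv _ (hxroot j)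
    obtain ⟨Wd, hW⟩ := hensel m ao tt xo h1 h5
    have h6 := first_coeff m ao tt xo h1 Wd hW
    refine ⟨fun k => ((PowerSeries.coeff k Wd : OO p) : ℂ_[p]), fun k => norm_OO p _, ?_, ?_⟩
    · have h7 := congrArg (fun y : OO p => ‖(y : ℂ_[p])‖) h6
      simp only [Subring.coe_mul, norm_mul] at h7
      rw [show ((((X - C tt) * ∏ i, (X - C (ao i)) - 1 : (OO p)[X]).derivative.eval xo : OO p) : ℂ_[p])
        = (((FF ao tt).derivative.eval xo : OO p) : ℂ_[p]) from rfl, h5, one_mul] at h7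
      rw [h7]
      push_cast
      rw [norm_prod]
      apply Finset.prod_eq_one
      intro i _
      exact norm_root_sub a t (x j) (hxeq j) i
    · intro s hs
      have hz : ‖(p : ℂ_[p]) * s‖ < 1 := by
        rw [norm_mul]
        calc _ ≤ ‖(p : ℂ_[p])‖ * 1 := mul_le_mul_of_nonneg_left hs (norm_nonneg _)
          _ < 1 := by rw [mul_one]; exact norm_p_lt p
      have h8 := congrArg (evHom hz) hW
      rw [map_mul, map_prod, map_one, map_sub, map_add (evHom hz) (PowerSeries.C tt)] at h8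
      simp only [map_sub] at h8
      simp only [evHom_apply] at h8
      rw [ev_aff hz, ev_C, ev_X] at h8
      simp only [ev_C] at h8
      have e1 : ((xo : OO p) : ℂ_[p]) = x j := rfl
      have e2 : ((tt : OO p) : ℂ_[p]) = (t : ℂ_[p]) := by simp [tt]
      have e3 : ∀ i, ((ao i : OO p) : ℂ_[p]) = (a i : ℂ_[p]) := by intro i; simp [ao]
      rw [e1, e2] at h8
      simp only [e3] at h8
      exact h8
  choose ξ hξ1 hξ2 hξ3 using hex
  exact ⟨x, ξ, hdiff, fun j i => norm_root_sub a t (x j) (hxeq j) i, hξ1, hξ2, hxeq, hξ3⟩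

end Pool.Agent.W154.LF
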